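import Mathlib
import Pool.Agent.U73.LS.Stm2

/-!
# Project LS (helper73), package EUL: the Euler product of the local densities (helper979)
-/

set_option autoImplicit false

namespace Pool.Agent.U979.LS.EUL

open Finset Filter Topology
open Pool.Agent.U73.LS (sd S_EUL)

/-- the function `1 / n ^ 2` -/
noncomputable def sq : ℕ →*₀ ℝ where
  toFun n := 1 / (n : ℝ) ^ 2
  map_zero' := by simp
  map_one' := by simp
  map_mul' m n := by push_cast; rw [mul_pow, one_div_mul_one_div]

theorem euler : Tendsto (fun z => ∏ p ∈ Nat.primesBelow z, (1 - 1 / (p : ℝ) ^ 2)) atTop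
    (𝓝 (6 / Real.pi ^ 2)) := by
  have h1 : HasSum (fun n : ℕ => sq n) (Real.pi ^ 2 / 6) := hasSum_zeta_two
  have h2 : Summable (fun n : ℕ => ‖sq n‖) := h1.summable.norm
  have h3 := EulerProduct.eulerProduct_completely_multiplicative h2
  rw [h1.tsum_eq] at h3
  have h4 := h3.inv₀ (by positivity)
  rw [inv_div] at h4
  refine h4.congr (fun z => ?_)
  rw [← Finset.prod_inv_distrib]
  refine Finset.prod_congr rfl (fun p _ => ?_)
  rw [inv_inv]
  rfl

theorem prod_eq (z : ℕ) (hz : 4 ≤ z) : ∏ p ∈ Nat.primesBelow z, sd p =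
    (1 / 3456) * ∏ p ∈ Nat.primesBelow z, (1 - 1 / (p : ℝ) ^ 2) := by
  induction z, hz using Nat.le_induction with
  | base =>
    have h : Nat.primesBelow 4 = {2, 3} := by decide
    rw [h, Finset.prod_pair (by norm_num), Finset.prod_pair (by norm_num)]
    unfold sd
    norm_num
  | succ z hz ih =>
    have hs : Nat.primesBelow (z + 1) = if z.Prime then insert z (Nat.primesBelow z) else Nat.primesBelow z :=
      Nat.primesBelow_succ z
    have hnot : z ∉ Nat.primesBelow z := by simp [Nat.mem_primesBelow]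
    rw [hs]
    split_ifs with h
    · rw [Finset.prod_insert hnot, Finset.prod_insert hnot, ih]
      have : sd z = 1 - 1 / (z : ℝ) ^ 2 := by
        unfold sd
        rw [if_neg (by omega), if_neg (by omega)]
      rw [this]
      ring
    · exact ih

theorem t_EUL : Pool.Agent.U73.LS.S_EUL := by
  unfold S_EUL
  have h := (euler.const_mul (4 * (1 / 3456) : ℝ))
  have e : (4 * (1 / 3456) : ℝ) * (6 / Real.pi ^ 2) = 1 / (144 * Real.pi ^ 2) := by
    have : Real.pi ≠ 0 := Real.pi_ne_zero
    field_simp
    norm_num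
  rw [e] at h
  refine h.congr' ?_
  filter_upwards [eventually_ge_atTop 4] with z hz
  rw [prod_eq z hz]
  ring

end Pool.Agent.U979.LS.EUL
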